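import Pool.Agent.H147_fact.WeightedM
import Pool.Agent.H147_fact.Many
import Pool.Agent.H147_fact.NearS

/-!
# Minimal spread of factorisations of `n!` for almost all `n`, in all short intervals

For every `ε > 0` there is a `C` such that for all `m ≥ 1` every interval `(N - H, N]` with
`0 ≤ H ≤ N`, `N ≥ 2` contains at most `C H ^ (5 / 6) (min (m, log N)) ^ (7 / 6)` integers `n` for
which `n!` is the product of the elements of a set of at least two distinct positive integers
whose largest and smallest element differ by at most `m` and by less than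
`n - (1 + ε) log_2 n`.

Outline of the proof.  If the number `t` of factors is at least `(1 + ε) log_2 n`, valuations at
the small primes give the claim for all large `n`.  If `t` is smaller and the factors lie in an
interval of length at most `n`, their sum is extremely close to `t (n!) ^ (1 / t)`.  For integers
`n < n + e_1 < ... < n + e_4` in the same class modulo `t` the ratios of these numbers are
algebraic functions of `1 / n`, and an auxiliary function with a zero estimate shows that a given
pattern `e_1, ..., e_4` occurs rarely; a counting argument finishes the proof.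
-/

open Pool.Agent.H147 in
theorem Pool.Agent.Results.MP_198aa6_nt.AlmostAllSpread.result (ε : ℝ) (hε : 0 < ε) :
    ∃ C : ℝ, ∀ m N H : ℕ, 1 ≤ m → 2 ≤ N → H ≤ N →
      (({n : ℕ | N - H < n ∧ n ≤ N ∧ ∃ S : Finset ℕ, 2 ≤ S.card ∧ ∏ a ∈ S, a = n.factorial ∧
          ∀ a ∈ S, ∀ b ∈ S, b ≤ a + m ∧
            (b : ℝ) - (a : ℝ) < (n : ℝ) - (1 + ε) * Real.logb 2 n}.ncard : ℕ) : ℝ)
        ≤ C * ((H : ℝ) ^ (5 / 6 : ℝ) * (min (m : ℝ) (Real.log N)) ^ (7 / 6 : ℝ)) := by
  classical
  set ε' : ℝ := min ε 1 with hε'
  have hε'0 : 0 < ε' := lt_min hε one_pos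
  have hε'1 : ε' ≤ ε := min_le_left _ _
  have hε'2 : ε' ≤ 1 := min_le_right _ _
  obtain ⟨n1, hn1⟩ := many_factors ε' hε'0
  obtain ⟨n2, hn2⟩ := near_of_close
  obtain ⟨C, -, hC⟩ := count_weight_m (max (max n1 n2) 2)
  refine ⟨C, fun m N H hm hN hHN => ?_⟩
  set Bad : ℕ → Prop := fun n => ∃ S : Finset ℕ, 2 ≤ S.card ∧ ∏ a ∈ S, a = n.factorial ∧
      ∀ a ∈ S, ∀ b ∈ S, b ≤ a + m ∧ (b : ℝ) - (a : ℝ) < (n : ℝ) - (1 + ε) * Real.logb 2 n with hBad
  have key := hC m (fun n => if Bad n then 1 else 0) hm (fun n => by split_ifs <;> norm_num)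
    (by
      intro n hn
      have hn1' : n1 ≤ n := le_trans (le_trans (le_max_left _ _) (le_max_left _ _)) hn
      have hn2' : n2 ≤ n := le_trans (le_trans (le_max_right _ _) (le_max_left _ _)) hn
      have hn22 : 2 ≤ n := le_trans (le_max_right _ _) hn
      by_cases hb : Bad n
      · rw [if_pos hb]
        obtain ⟨S, hcard, hprod, hclose⟩ := hb
        have hlogb : 0 ≤ Real.logb 2 n :=
          Real.logb_nonneg (by norm_num) (by exact_mod_cast (by omega : 1 ≤ n))
        have hlog2 : (0.6931471803 : ℝ) < Real.log 2 := Real.log_two_gt_d9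
        have hlogn : 0 ≤ Real.log n := Real.log_nonneg (by exact_mod_cast (by omega : 1 ≤ n))
        have hfew : (S.card : ℝ) < (1 + ε') * Real.logb 2 n := by
          by_contra hcon
          push Not at hcon
          obtain ⟨a, ha, b, hb, hab⟩ := hn1 n hn1' S hprod hcon
          have h1 := (hclose a ha b hb).2
          have h2 : (1 + ε') * Real.logb 2 n ≤ (1 + ε) * Real.logb 2 n := by gcongr
          linarith
        have hcard3 : (S.card : ℝ) ≤ 3 * Real.log n := by
          have h1 : (1 + ε') * Real.logb 2 n ≤ 2 * Real.logb 2 n := by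
            apply mul_le_mul_of_nonneg_right (by linarith) hlogb
          have h2 : Real.logb 2 n = Real.log n / Real.log 2 := rfl
          have h3 : 2 * Real.logb 2 n ≤ 3 * Real.log n := by
            rw [h2, mul_div_assoc', div_le_iff₀ (by linarith)]
            nlinarith
          linarith
        have hcardm : S.card ≤ m + 1 := by
          have hne : S.Nonempty := Finset.card_pos.1 (by omega)
          set a := S.min' hne with ha
          have haS : a ∈ S := S.min'_mem hne
          have hsub2 : S ⊆ Finset.Icc a (a + m) := by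
            intro x hx
            rw [Finset.mem_Icc]
            exact ⟨S.min'_le x hx, (hclose a haS x hx).1⟩
          have := Finset.card_le_card hsub2
          rw [Nat.card_Icc] at this
          omega
        apply Finset.card_pos.2
        refine ⟨S.card, ?_⟩
        rw [Finset.mem_filter, Finset.mem_Icc]
        refine ⟨⟨hcard, le_min hcardm (Nat.le_floor hcard3)⟩, hn2 n hn2' S hprod hcard hcard3 ?_⟩
        intro a ha b hb
        have h1 := (hclose a ha b hb).2
        have h2 : 0 ≤ (1 + ε) * Real.logb 2 n := by positivity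
        linarith
      · rw [if_neg hb]
        exact Nat.zero_le _) N H hN hHN
  have h1 : {n : ℕ | N - H < n ∧ n ≤ N ∧ ∃ S : Finset ℕ, 2 ≤ S.card ∧ ∏ a ∈ S, a = n.factorial ∧
          ∀ a ∈ S, ∀ b ∈ S, b ≤ a + m ∧ (b : ℝ) - (a : ℝ) < (n : ℝ) - (1 + ε) * Real.logb 2 n}
      = (((Finset.Ioc (N - H) N).filter Bad : Finset ℕ) : Set ℕ) := by
    ext n
    simp only [Set.mem_ofPred_eq, Finset.coe_filter, Finset.mem_Ioc, hBad]
    tauto
  rw [h1, Set.ncard_coe_finset, Finset.card_filter]
  exact key
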