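import Pool.Agent.H147_fact.Many

/-!
# Factorisations of `n!` with many factors

For every `ε > 0` and all large `n`, a set of at least `(1 + ε) log_2 n` distinct positive integers
with product `n!` contains two elements whose difference is at least `n - (1 + ε) log_2 n`.
-/

theorem Pool.Agent.Results.MP_198aa6_nt.ManyFactors.result (ε : ℝ) (hε : 0 < ε) :
    ∃ n0 : ℕ, ∀ n : ℕ, n0 ≤ n → ∀ S : Finset ℕ, ∏ a ∈ S, a = n.factorial →
      (1 + ε) * Real.logb 2 n ≤ (S.card : ℝ) →
      ∃ a ∈ S, ∃ b ∈ S, (n : ℝ) - (1 + ε) * Real.logb 2 n ≤ (b : ℝ) - (a : ℝ) :=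
  Pool.Agent.H147.many_factors ε hε
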