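import Pool.Agent.H147_fact.Window

/-!
# Minimal spread of factorisations of `n!` in very short windows

There are `c > 0` and `n₀` such that for all `n ≥ n₀` and all `m`, at most `m ^ 2 + 3 m` of the
integers `n'` with `n ≤ n' ≤ n + c log n / log log n` have the property that `n'!` is a product
of at least two distinct positive integers in an interval of length `m`.

Outline of the proof.  If `n'!` is a product of `t` distinct integers in an interval of length
`m ≤ n'`, then `2 ≤ t ≤ m + 1` and `t (n'!) ^ (1 / t)` is extremely close to an integer.  For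
three such integers in the same class modulo `t` and in the window, the ratios of these numbers
are algebraic functions of `1 / n`; an auxiliary function with three terms whose derivatives at
`1 / n` give integers of absolute value less than 1 contradicts a zero estimate.
-/

open Finset Pool.Agent.H147 in
theorem Pool.Agent.Results.MP_198aa6_nt.ShortWindows.result :
    ∃ c : ℝ, 0 < c ∧ ∃ n₀ : ℕ, ∀ n : ℕ, n₀ ≤ n → ∀ m : ℕ,
      {n' : ℕ | n ≤ n' ∧ (n' : ℝ) ≤ n + c * Real.log n / Real.log (Real.log n) ∧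
        ∃ S : Finset ℕ, 2 ≤ S.card ∧ ∏ a ∈ S, a = n'.factorial ∧
          ∀ a ∈ S, ∀ b ∈ S, b ≤ a + m}.ncard ≤ m ^ 2 + 3 * m := by
  classical
  obtain ⟨n1, hn1⟩ := near_of_close
  obtain ⟨n2, hn2⟩ := eventually_window
  refine ⟨1 / 20000, by norm_num, max (max n1 n2) 1, fun n hn m => ?_⟩
  have h1 : n1 ≤ n := le_trans (le_trans (le_max_left _ _) (le_max_left _ _)) hn
  have h2 : n2 ≤ n := le_trans (le_trans (le_max_right _ _) (le_max_left _ _)) hn
  have h3 : 1 ≤ n := le_trans (le_max_right _ _) hn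
  obtain ⟨a1, a2, a3⟩ := hn2 n h2
  set ℓ := Real.log n with hℓ
  set L := ⌊1 / 20000 * ℓ / Real.log ℓ⌋₊ with hL
  have hq0 : 0 ≤ 1 / 20000 * ℓ / Real.log ℓ := by
    apply div_nonneg <;> linarith
  have hLle : (L : ℝ) ≤ 1 / 20000 * ℓ / Real.log ℓ := Nat.floor_le hq0
  have hLℓ : (L : ℝ) ≤ 1 / 20000 * ℓ := by
    refine hLle.trans ?_
    rw [div_le_iff₀ (by linarith)]
    nlinarith
  -- the window
  set W := {n' : ℕ | n ≤ n' ∧ (n' : ℝ) ≤ n + 1 / 20000 * ℓ / Real.log ℓ ∧
        ∃ S : Finset ℕ, 2 ≤ S.card ∧ ∏ a ∈ S, a = n'.factorial ∧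
          ∀ a ∈ S, ∀ b ∈ S, b ≤ a + m} with hW
  have hwin : ∀ n' ∈ W, n ≤ n' ∧ n' ≤ n + L := by
    rintro n' ⟨b1, b2, -⟩
    refine ⟨b1, ?_⟩
    have b3 : ((n' - n : ℕ) : ℝ) ≤ 1 / 20000 * ℓ / Real.log ℓ := by
      rw [Nat.cast_sub b1]; linarith
    have b4 : n' - n ≤ L := Nat.le_floor b3
    omega
  by_cases hm : L + 1 ≤ m ^ 2 + 3 * m
  · refine le_trans ?_ hm
    have hsub : W ⊆ (Icc n (n + L) : Finset ℕ) := by
      intro n' hn'
      rw [mem_coe, mem_Icc]
      exact hwin n' hn'
    refine (Set.ncard_le_ncard hsub (finite_toSet _)).trans ?_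
    rw [Set.ncard_coe_finset, Nat.card_Icc]
    omega
  push Not at hm
  have hLlog : 20000 * ((L : ℝ) * Real.log (2 * L)) ≤ ℓ := by
    rcases Nat.eq_zero_or_pos L with h0 | h0
    · rw [h0]; simp; linarith
    have hL0 : (0 : ℝ) < L := by exact_mod_cast h0
    have b1 : Real.log (2 * L) ≤ Real.log ℓ := by
      apply Real.log_le_log (by positivity)
      linarith
    have b2 : (L : ℝ) * Real.log (2 * L) ≤ L * Real.log ℓ := mul_le_mul_of_nonneg_left b1 hL0.le
    have b3 : (L : ℝ) * Real.log ℓ ≤ 1 / 20000 * ℓ := by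
      rwa [le_div_iff₀ (by linarith)] at hLle
    linarith
  have hL3 : 3000000 * L ^ 3 ≤ 2 * n := by
    have b1 : (L : ℝ) ^ 3 ≤ ℓ ^ 3 := by
      apply pow_le_pow_left₀ (by positivity)
      linarith
    have : (3000000 * L ^ 3 : ℝ) ≤ 2 * n := by linarith
    exact_mod_cast this
  have hnpos : (0 : ℝ) < n := by exact_mod_cast h3
  have hsub : W ⊆ (((Icc 2 (m + 1)).biUnion
      (fun t => (Icc n (n + L)).filter (fun n' => Near t n')) : Finset ℕ) : Set ℕ) := by
    intro n' hn'
    have hwn := hwin n' hn'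
    obtain ⟨-, -, S, hc, hprod, hclose⟩ := hn'
    rw [mem_coe, mem_biUnion]
    have hn'pos : (0 : ℝ) < n' := by exact_mod_cast (by omega : 0 < n')
    have hcard : S.card ≤ m + 1 := by
      have hne : S.Nonempty := card_pos.1 (by omega)
      set a := S.min' hne with ha
      have haS : a ∈ S := S.min'_mem hne
      have hsub2 : S ⊆ Icc a (a + m) := by
        intro x hx
        rw [mem_Icc]
        exact ⟨S.min'_le x hx, hclose a haS x hx⟩
      have := card_le_card hsub2
      rw [Nat.card_Icc] at this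
      omega
    have hmL : m ≤ L := by nlinarith
    have hLn : L ≤ n := by
      have h5 : 2 * L ≤ 3000000 * L ^ 3 := by
        rcases Nat.eq_zero_or_pos L with h0 | h0
        · omega
        · have h6 : 1 ≤ L ^ 2 := Nat.one_le_pow _ _ h0
          have h7 : L * 1 ≤ L * L ^ 2 := Nat.mul_le_mul_left _ h6
          have h8 : L ^ 3 = L * L ^ 2 := by ring
          omega
      omega
    refine ⟨S.card, mem_Icc.2 ⟨hc, hcard⟩, ?_⟩
    rw [mem_filter, mem_Icc]
    refine ⟨hwn, hn1 n' (by omega) S hprod hc ?_ ?_⟩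
    · have b1 : (S.card : ℝ) ≤ L + 1 := by
        have : S.card ≤ L + 1 := by omega
        exact_mod_cast this
      have b2 : ℓ ≤ Real.log n' := Real.log_le_log hnpos (by exact_mod_cast hwn.1)
      linarith
    · intro a ha b hb
      have b1 := hclose a ha b hb
      have b2 : b ≤ a + n' := by omega
      have b3 : (b : ℝ) ≤ a + n' := by exact_mod_cast b2
      linarith
  refine (Set.ncard_le_ncard hsub (finite_toSet _)).trans ?_
  rw [Set.ncard_coe_finset]
  refine card_biUnion_le.trans ?_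
  rw [← sum_two_mul]
  apply sum_le_sum
  intro t ht
  rw [mem_Icc] at ht
  exact class_card n L t ht.1 a1 hLlog hL3
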